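import Pool.Agent.H79.CF.R1

/-!
# MP_347b49_nt, board `cfm_modules`: row RD34
-/

set_option autoImplicit false

open NumberField Module
open scoped nonZeroDivisors

namespace Pool.Agent.H79.CF

open Pool.Agent.H28.RC Pool.Agent.H91.CF Pool.Agent.H24.Cls Pool.Agent.H31.CN Pool.Agent.H56.CF

theorem pf_D34 (hC : T_CNT) (hN : Pool.Agent.H91.CF.T_NRF) (hA : T_SHA) (hP : T_PHI) :
    T_D34 := by
  refine ⟨2560 * √2, by positivity, ?_⟩
  intro K _ _ X h2 hD hX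
  have hX0 : 0 < X := by linarith
  -- the class number
  have hcl : (classNumber K : ℝ) ≤ 320 := by
    have hfam : Fam (fun _ => K) {discr K} 4 := by
      intro d hd
      rw [Finset.mem_singleton] at hd
      subst hd
      exact ⟨h2, rfl, hD⟩
    have h := hA (fun _ => K) {discr K} 4 hfam (by norm_num)
    rw [Finset.sum_singleton] at h
    have h4 : (4 : ℝ) ^ (3 / 2 : ℝ) = 8 := by
      have h5 : (4 : ℝ) = 2 ^ (2 : ℝ) := by
        rw [Real.rpow_two]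
        norm_num
      rw [h5, ← Real.rpow_mul (by norm_num)]
      have h6 : (2 : ℝ) * (3 / 2) = ((3 : ℕ) : ℝ) := by norm_num
      rw [h6, Real.rpow_natCast]
      norm_num
    rw [h4] at h
    linarith
  have hd1 : 1 ≤ |(discr K : ℝ)| := by
    have h4 : 1 ≤ |discr K| := Int.one_le_abs (discr_ne_zero K)
    have h5 : ((1 : ℤ) : ℝ) ≤ ((|discr K| : ℤ) : ℝ) := by exact_mod_cast h4
    rwa [Int.cast_one, Int.cast_abs] at h5
  obtain ⟨N, hNd⟩ : ∃ N : ℕ, N = ⌊√(X / |(discr K : ℝ)|)⌋₊ := ⟨_, rfl⟩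
  obtain ⟨z, hz⟩ : ∃ z : ℝ, z = √X := ⟨_, rfl⟩
  have hz0 : 0 ≤ z := by rw [hz]; exact Real.sqrt_nonneg _
  have hzz : z * z = X := by rw [hz]; exact Real.mul_self_sqrt hX0.le
  have hNz : (N : ℝ) ≤ z := by
    rw [hNd, hz]
    refine (Nat.floor_le (Real.sqrt_nonneg _)).trans (Real.sqrt_le_sqrt ?_)
    exact div_le_self hX0.le hd1
  have h3 := (hC K X h2 hX0.le).2
  rw [← hNd] at h3
  have h4 : ((OX K X).ncard : ℝ) ≤ ∑ f ∈ Finset.Icc 1 N, (nn K f : ℝ) := by exact_mod_cast h3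
  have h5 : ∀ f ∈ Finset.Icc 1 N, (nn K f : ℝ) ≤ 8 * √2 * (z * √z) * 320 := by
    intro f hf
    obtain ⟨hf1, hfN⟩ := Finset.mem_Icc.1 hf
    have hfz : (f : ℝ) ≤ z := by
      have : (f : ℝ) ≤ N := by exact_mod_cast hfN
      linarith
    have h6 : √(f : ℝ) ≤ √z := Real.sqrt_le_sqrt hfz
    have h7 : (f : ℝ) * √f ≤ z * √z := mul_le_mul hfz h6 (Real.sqrt_nonneg _) hz0
    refine (nn_le hN hP K h2 f hf1).trans ?_
    exact mul_le_mul (mul_le_mul_of_nonneg_left h7 (by positivity)) hcl (Nat.cast_nonneg _)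
      (by positivity)
  have h6 : ∑ f ∈ Finset.Icc 1 N, (nn K f : ℝ) ≤ N * (8 * √2 * (z * √z) * 320) := by
    refine (Finset.sum_le_sum h5).trans (le_of_eq ?_)
    rw [Finset.sum_const, nsmul_eq_mul, Nat.card_Icc, Nat.add_sub_cancel]
  have h7 : (N : ℝ) * (8 * √2 * (z * √z) * 320) ≤ z * (8 * √2 * (z * √z) * 320) :=
    mul_le_mul_of_nonneg_right hNz (by positivity)
  have h8 : z * (8 * √2 * (z * √z) * 320) = 2560 * √2 * (X * √z) := by
    rw [← hzz]
    ring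
  have h9 : X * √z = X ^ (5 / 4 : ℝ) := by
    rw [hz, Real.sqrt_eq_rpow, Real.sqrt_eq_rpow, ← Real.rpow_mul hX0.le]
    have h10 : X * X ^ ((1 : ℝ) / 2 * (1 / 2)) = X ^ (1 : ℝ) * X ^ ((1 : ℝ) / 2 * (1 / 2)) := by
      rw [Real.rpow_one]
    rw [h10, ← Real.rpow_add hX0]
    norm_num
  rw [h9] at h8
  linarith

end Pool.Agent.H79.CF
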