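import Pool.Agent.H79.CF.R1

/-!
# MP_347b49_nt, board `cfm_modules`: row RREA
-/

set_option autoImplicit false

open NumberField Module
open scoped nonZeroDivisors

namespace Pool.Agent.H79.CF

open Pool.Agent.H28.RC Pool.Agent.H91.CF Pool.Agent.H24.Cls Pool.Agent.H31.CN Pool.Agent.H56.CF

theorem pf_REA (hC : T_CNT) (hN : Pool.Agent.H91.CF.T_NRF) (hE : T_SHE) (hT : T_TLS)
    (hP : T_PHI) : T_REA := by
  intro ε hε
  obtain ⟨C1, hC1, hE1⟩ := hE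
  obtain ⟨C2, hC2, hT2⟩ := hT
  -- the cut
  obtain ⟨F, hF1, hF2⟩ : ∃ F : ℕ, 1 ≤ F ∧ C2 / √F ≤ ε / 2 := by
    obtain ⟨m, hm⟩ := exists_nat_gt ((2 * C2 / ε) ^ 2 + 1)
    refine ⟨m, ?_, ?_⟩
    · have h1 : (1 : ℝ) < m := by
        have := sq_nonneg (2 * C2 / ε)
        linarith
      have h2 : 1 < m := by exact_mod_cast h1
      omega
    · have h1 : (2 * C2 / ε) ^ 2 ≤ m := by linarith
      have h2 : 2 * C2 / ε ≤ √m := Real.le_sqrt_of_sq_le h1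
      have hp : 0 < 2 * C2 / ε := by positivity
      have h3 : 0 < √(m : ℝ) := lt_of_lt_of_le hp h2
      rw [div_le_iff₀ h3]
      rw [div_le_iff₀ hε] at h2
      linarith
  have hF1' : (1 : ℝ) ≤ F := by exact_mod_cast hF1
  obtain ⟨M, hM⟩ : ∃ M : ℝ, M = 16 * √2 * C1 * F / ε := ⟨_, rfl⟩
  have hM0 : 0 < M := by
    rw [hM]
    positivity
  refine ⟨(F : ℝ) ^ 2 * (2 * Real.exp M), ?_⟩
  intro K _ _ S X hX hF hpos
  have hexp : 1 ≤ Real.exp M := Real.one_le_exp hM0.le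
  have hFF : (1 : ℝ) ≤ (F : ℝ) ^ 2 := one_le_pow₀ hF1'
  have hX1 : 1 ≤ X := by
    have h1 : (1 : ℝ) ≤ 2 * Real.exp M := by linarith
    have h2 := one_le_mul_of_one_le_of_one_le hFF h1
    linarith
  have hX0 : 0 < X := by linarith
  have hX32 : 0 ≤ X ^ (3 / 2 : ℝ) := Real.rpow_nonneg hX0.le _
  have habs : ∀ d ∈ S, 1 ≤ |(d : ℝ)| := fun d hd => fam_abs hF d hd
  -- splitting
  have hsplit : ∀ d ∈ S, ((OX (K d) X).ncard : ℝ) ≤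
      (∑ f ∈ (Finset.Icc 1 F).filter (fun f : ℕ => |(d : ℝ)| * (f : ℝ) ^ 2 ≤ X),
        (nn (K d) f : ℝ)) +
      ∑ f ∈ Finset.Ioc F ⌊√(X / |(d : ℝ)|)⌋₊, (nn (K d) f : ℝ) := by
    intro d hd
    obtain ⟨h1, h2, -⟩ := hF d hd
    have h3 := (hC (K d) X h1 hX0.le).2
    rw [h2] at h3
    have h4 : ((OX (K d) X).ncard : ℝ) ≤
        ∑ f ∈ Finset.Icc 1 ⌊√(X / |(d : ℝ)|)⌋₊, (nn (K d) f : ℝ) := by exact_mod_cast h3
    refine h4.trans ?_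
    have hdis : Disjoint ((Finset.Icc 1 F).filter (fun f : ℕ => |(d : ℝ)| * (f : ℝ) ^ 2 ≤ X))
        (Finset.Ioc F ⌊√(X / |(d : ℝ)|)⌋₊) := by
      rw [Finset.disjoint_left]
      intro f hf hf'
      have h5 := (Finset.mem_Icc.1 (Finset.mem_filter.1 hf).1).2
      have h6 := (Finset.mem_Ioc.1 hf').1
      omega
    rw [← Finset.sum_union hdis]
    refine Finset.sum_le_sum_of_subset_of_nonneg ?_ (fun _ _ _ => Nat.cast_nonneg _)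
    intro f hf
    obtain ⟨hf1, hf2⟩ := Finset.mem_Icc.1 hf
    rw [Finset.mem_union]
    by_cases hfF : f ≤ F
    · left
      refine Finset.mem_filter.2 ⟨Finset.mem_Icc.2 ⟨hf1, hfF⟩, ?_⟩
      have hd1 := habs d hd
      have h7 : (f : ℝ) ≤ √(X / |(d : ℝ)|) := (Nat.le_floor_iff (Real.sqrt_nonneg _)).1 hf2
      have h8 : (f : ℝ) ^ 2 ≤ √(X / |(d : ℝ)|) ^ 2 := pow_le_pow_left₀ (Nat.cast_nonneg f) h7 2
      rw [Real.sq_sqrt (by positivity), le_div_iff₀ (by linarith)] at h8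
      rw [mul_comm]
      exact h8
    · right
      exact Finset.mem_Ioc.2 ⟨by omega, hf2⟩
  have hsum1 : ∑ d ∈ S, ((OX (K d) X).ncard : ℝ) ≤
      (∑ d ∈ S, ∑ f ∈ (Finset.Icc 1 F).filter (fun f : ℕ => |(d : ℝ)| * (f : ℝ) ^ 2 ≤ X),
        (nn (K d) f : ℝ)) +
      ∑ d ∈ S, ∑ f ∈ Finset.Ioc F ⌊√(X / |(d : ℝ)|)⌋₊, (nn (K d) f : ℝ) := by
    rw [← Finset.sum_add_distrib]
    exact Finset.sum_le_sum hsplit
  have htail := hT2 K S X F hF hX1 hF1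
  -- the small conductors
  have hsw : ∑ d ∈ S, ∑ f ∈ (Finset.Icc 1 F).filter (fun f : ℕ => |(d : ℝ)| * (f : ℝ) ^ 2 ≤ X),
        (nn (K d) f : ℝ) =
      ∑ f ∈ Finset.Icc 1 F, ∑ d ∈ S.filter (fun d : ℤ => |(d : ℝ)| * (f : ℝ) ^ 2 ≤ X),
        (nn (K d) f : ℝ) := by
    rw [Finset.sum_congr rfl fun d _ => Finset.sum_filter _ _, Finset.sum_comm]
    refine Finset.sum_congr rfl fun f _ => ?_
    rw [Finset.sum_filter]
  have hsmall : ∀ f ∈ Finset.Icc 1 F,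
      ∑ d ∈ S.filter (fun d : ℤ => |(d : ℝ)| * (f : ℝ) ^ 2 ≤ X), (nn (K d) f : ℝ) ≤
        8 * √2 * C1 * X ^ (3 / 2 : ℝ) / M := by
    intro f hf
    obtain ⟨hf1, hfF⟩ := Finset.mem_Icc.1 hf
    have hf1' : (1 : ℝ) ≤ f := by exact_mod_cast hf1
    have hf' : (0 : ℝ) < f := by linarith
    have hfF' : (f : ℝ) ≤ F := by exact_mod_cast hfF
    have hff : (f : ℝ) ^ 2 ≤ (F : ℝ) ^ 2 := pow_le_pow_left₀ hf'.le hfF' 2
    have hY : 2 * Real.exp M ≤ X / (f : ℝ) ^ 2 := by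
      rw [le_div_iff₀ (by positivity)]
      have h1 : 2 * Real.exp M * (f : ℝ) ^ 2 ≤ 2 * Real.exp M * (F : ℝ) ^ 2 :=
        mul_le_mul_of_nonneg_left hff (by positivity)
      linarith
    have hY2 : 2 ≤ X / (f : ℝ) ^ 2 := by linarith
    have hlog : M ≤ Real.log (X / (f : ℝ) ^ 2) := by
      rw [Real.le_log_iff_exp_le (by linarith)]
      linarith
    have hfam : Fam K (S.filter (fun d : ℤ => |(d : ℝ)| * (f : ℝ) ^ 2 ≤ X))
        (X / (f : ℝ) ^ 2) := by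
      intro d hd
      obtain ⟨hdS, hdX⟩ := Finset.mem_filter.1 hd
      obtain ⟨h1, h2, -⟩ := hF d hdS
      refine ⟨h1, h2, ?_⟩
      rw [le_div_iff₀ (by positivity)]
      exact hdX
    have h1 := hE1 K _ _ hfam (fun d hd => hpos d (Finset.mem_filter.1 hd).1) hY2
    have h2 : ∑ d ∈ S.filter (fun d : ℤ => |(d : ℝ)| * (f : ℝ) ^ 2 ≤ X), (nn (K d) f : ℝ) ≤
        ∑ d ∈ S.filter (fun d : ℤ => |(d : ℝ)| * (f : ℝ) ^ 2 ≤ X),
          8 * √2 * ((f : ℝ) * √f) * (classNumber (K d) : ℝ) :=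
      Finset.sum_le_sum fun d hd => nn_le hN hP (K d) (hF d (Finset.mem_filter.1 hd).1).1 f hf1
    rw [← Finset.mul_sum] at h2
    have h3 := pow32 X f hX0.le hf1
    have hs1 : (1 : ℝ) ≤ (f : ℝ) * √f := by
      have h4 : (1 : ℝ) ≤ √(f : ℝ) := Real.one_le_sqrt.2 hf1'
      exact one_le_mul_of_one_le_of_one_le hf1' h4
    have h4 : ((f : ℝ) * √f) * (X / (f : ℝ) ^ 2) ^ (3 / 2 : ℝ) ≤ X ^ (3 / 2 : ℝ) := by
      rw [h3]
      have h5 : 1 / ((f : ℝ) * √f) ≤ 1 := by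
        rw [div_le_one (by linarith)]
        exact hs1
      calc X ^ (3 / 2 : ℝ) * (1 / ((f : ℝ) * √f)) ≤ X ^ (3 / 2 : ℝ) * 1 :=
            mul_le_mul_of_nonneg_left h5 hX32
        _ = X ^ (3 / 2 : ℝ) := mul_one _
    have h6 : C1 * (X / (f : ℝ) ^ 2) ^ (3 / 2 : ℝ) / Real.log (X / (f : ℝ) ^ 2) ≤
        C1 * (X / (f : ℝ) ^ 2) ^ (3 / 2 : ℝ) / M :=
      div_le_div_of_nonneg_left (by positivity) hM0 hlog
    refine h2.trans ((mul_le_mul_of_nonneg_left (h1.trans h6) (by positivity)).trans ?_)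
    calc 8 * √2 * ((f : ℝ) * √f) * (C1 * (X / (f : ℝ) ^ 2) ^ (3 / 2 : ℝ) / M) =
        8 * √2 * C1 / M * (((f : ℝ) * √f) * (X / (f : ℝ) ^ 2) ^ (3 / 2 : ℝ)) := by ring
      _ ≤ 8 * √2 * C1 / M * X ^ (3 / 2 : ℝ) := mul_le_mul_of_nonneg_left h4 (by positivity)
      _ = 8 * √2 * C1 * X ^ (3 / 2 : ℝ) / M := by ring
  have hsum2 : ∑ f ∈ Finset.Icc 1 F,
      ∑ d ∈ S.filter (fun d : ℤ => |(d : ℝ)| * (f : ℝ) ^ 2 ≤ X), (nn (K d) f : ℝ) ≤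
        ε / 2 * X ^ (3 / 2 : ℝ) := by
    refine (Finset.sum_le_sum hsmall).trans (le_of_eq ?_)
    rw [Finset.sum_const, nsmul_eq_mul, Nat.card_Icc, hM]
    have hF0 : (F : ℝ) ≠ 0 := by linarith
    have h2 : √(2 : ℝ) ≠ 0 := by positivity
    have hcast : ((F + 1 - 1 : ℕ) : ℝ) = F := by
      rw [Nat.add_sub_cancel]
    rw [hcast]
    field_simp
    ring
  have hT3 : C2 * X ^ (3 / 2 : ℝ) / √F ≤ ε / 2 * X ^ (3 / 2 : ℝ) := by
    have h1 := mul_le_mul_of_nonneg_right hF2 hX32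
    calc C2 * X ^ (3 / 2 : ℝ) / √F = C2 / √F * X ^ (3 / 2 : ℝ) := by ring
      _ ≤ ε / 2 * X ^ (3 / 2 : ℝ) := h1
  rw [hsw] at hsum1
  linarith

end Pool.Agent.H79.CF
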