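import Pool.Agent.H79.CF.R1

/-!
# MP_347b49_nt, board `cfm_modules`: row RTLS
-/

set_option autoImplicit false

open NumberField Module
open scoped nonZeroDivisors

namespace Pool.Agent.H79.CF

open Pool.Agent.H28.RC Pool.Agent.H91.CF Pool.Agent.H24.Cls Pool.Agent.H31.CN Pool.Agent.H56.CF

theorem pf_TLS (hN : Pool.Agent.H91.CF.T_NRF) (hA : T_SHA) (hP : T_PHI) : T_TLS := by
  refine ⟨640 * √2, by positivity, ?_⟩
  intro K _ _ S X F hF hX hF1
  have hX0 : 0 ≤ X := by linarith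
  obtain ⟨N, hNd⟩ : ∃ N : ℕ, N = max F ⌊√X⌋₊ := ⟨_, rfl⟩
  have hFN : F ≤ N := by rw [hNd]; exact le_max_left _ _
  have hT : ∀ f : ℕ, F < f → (f : ℝ) ^ 2 ≤ X → f ∈ Finset.range (N + 1) := by
    intro f _ hf
    rw [Finset.mem_range, Nat.lt_succ_iff, hNd]
    refine le_max_of_le_right ?_
    rw [Nat.le_floor_iff (Real.sqrt_nonneg _)]
    exact Real.le_sqrt_of_sq_le hf
  have hfil : (Finset.range (N + 1)).filter (fun f => F < f) = Finset.Ioc F N := by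
    ext f
    rw [Finset.mem_filter, Finset.mem_range, Finset.mem_Ioc]
    omega
  refine (exch S X F (fun d f => (nn (K d) f : ℝ)) (fun _ _ => Nat.cast_nonneg _) hX
    (fun d hd => fam_abs hF d hd) (Finset.range (N + 1)) hT).trans ?_
  rw [hfil]
  have hX32 : 0 ≤ X ^ (3 / 2 : ℝ) := Real.rpow_nonneg hX0 _
  have hin : ∀ f ∈ Finset.Ioc F N,
      ∑ d ∈ S.filter (fun d : ℤ => |(d : ℝ)| * (f : ℝ) ^ 2 ≤ X), (nn (K d) f : ℝ) ≤
        320 * √2 * X ^ (3 / 2 : ℝ) * (1 / ((f : ℝ) * √f)) := by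
    intro f hf
    have hf1 : 1 ≤ f := by
      have := (Finset.mem_Ioc.1 hf).1
      omega
    have hf' : (0 : ℝ) < f := by exact_mod_cast hf1
    have hs : 0 < √(f : ℝ) := Real.sqrt_pos.2 hf'
    by_cases hem : (S.filter (fun d : ℤ => |(d : ℝ)| * (f : ℝ) ^ 2 ≤ X)) = ∅
    · rw [hem, Finset.sum_empty]
      positivity
    · obtain ⟨d0, hd0⟩ := Finset.nonempty_iff_ne_empty.2 hem
      obtain ⟨hd0S, hd0X⟩ := Finset.mem_filter.1 hd0
      have hY : 1 ≤ X / (f : ℝ) ^ 2 := by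
        rw [le_div_iff₀ (by positivity), one_mul]
        have h1 := fam_abs hF d0 hd0S
        have h2 : 1 * (f : ℝ) ^ 2 ≤ |(d0 : ℝ)| * (f : ℝ) ^ 2 :=
          mul_le_mul_of_nonneg_right h1 (by positivity)
        linarith
      have hfam : Fam K (S.filter (fun d : ℤ => |(d : ℝ)| * (f : ℝ) ^ 2 ≤ X))
          (X / (f : ℝ) ^ 2) := by
        intro d hd
        obtain ⟨hdS, hdX⟩ := Finset.mem_filter.1 hd
        obtain ⟨h1, h2, -⟩ := hF d hdS
        refine ⟨h1, h2, ?_⟩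
        rw [le_div_iff₀ (by positivity)]
        exact hdX
      have h1 := hA K _ _ hfam hY
      have h2 : ∑ d ∈ S.filter (fun d : ℤ => |(d : ℝ)| * (f : ℝ) ^ 2 ≤ X), (nn (K d) f : ℝ) ≤
          ∑ d ∈ S.filter (fun d : ℤ => |(d : ℝ)| * (f : ℝ) ^ 2 ≤ X),
            8 * √2 * ((f : ℝ) * √f) * (classNumber (K d) : ℝ) :=
        Finset.sum_le_sum fun d hd => nn_le hN hP (K d) (hF d (Finset.mem_filter.1 hd).1).1 f hf1
      rw [← Finset.mul_sum] at h2
      refine h2.trans ((mul_le_mul_of_nonneg_left h1 (by positivity)).trans (le_of_eq ?_))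
      have h3 := pow32 X f hX0 hf1
      calc 8 * √2 * ((f : ℝ) * √f) * (40 * (X / (f : ℝ) ^ 2) ^ (3 / 2 : ℝ)) =
          320 * √2 * (((f : ℝ) * √f) * (X / (f : ℝ) ^ 2) ^ (3 / 2 : ℝ)) := by ring
        _ = 320 * √2 * X ^ (3 / 2 : ℝ) * (1 / ((f : ℝ) * √f)) := by rw [h3]; ring
  refine (Finset.sum_le_sum hin).trans ?_
  rw [← Finset.mul_sum]
  have h4 := tail_sum F N hF1 hFN
  have h5 : 0 ≤ 2 / √(N : ℝ) := by positivity
  have h6 : ∑ f ∈ Finset.Ioc F N, 1 / ((f : ℝ) * √f) ≤ 2 / √F := by linarith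
  refine (mul_le_mul_of_nonneg_left h6 (by positivity)).trans (le_of_eq ?_)
  ring

end Pool.Agent.H79.CF
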