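import Pool.Agent.H37.CF.Targets

/-!
# MP_347b49_nt, board `cfm_modules`: row CRRL
-/

set_option autoImplicit false

open NumberField

namespace Pool.Agent.H79.CF

open Pool.Agent.H31.CN Pool.Agent.H37.CF
open Pool.Agent.H91.CF (fmD Fu)

lemma rc_mul_le (hCH2 : Pool.Agent.H31.CN.T_CH2) (K : Type) [Field K] [NumberField K]
    (x : ClassGroup (𝓞 K)) (J : ℕ) (hx : ∀ j : ℕ, 1 ≤ j → j ≤ J → x ^ (2 * j) ≠ 1) :
    ((J : ℝ) + 1) * rc K ≤ classNumber K := by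
  have h1 := (hCH2 (ClassGroup (𝓞 K)) x J hx).1
  have h2 : Nat.card (ClassGroup (𝓞 K)) = classNumber K := by
    rw [Nat.card_eq_fintype_card]
    rfl
  have h4 : (J + 1) * rc K ≤ classNumber K := by
    unfold rc
    rw [← h2]
    exact h1
  exact_mod_cast h4

theorem pf_RRL (hORG : T_ORG) (hCH2 : Pool.Agent.H31.CN.T_CH2) (hSIE : T_SIE) (hSIP : T_SIP)
    (hHSU : Pool.Agent.H91.CF.T_HSU) : Pool.Agent.H91.CF.T_RRL := by
  classical
  intro ε hε
  obtain ⟨C, c, Y0, hC, -, hH⟩ := hHSU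
  obtain ⟨J, hJ⟩ := exists_nat_gt (4 * C / ε)
  obtain ⟨ε1, hε1⟩ : ∃ ε1 : ℝ, ε1 = (ε / 4) ^ 2 / (4 * C) := ⟨_, rfl⟩
  have hε1p : 0 < ε1 := by rw [hε1]; positivity
  obtain ⟨T, hT, hTε⟩ := hSIP ε1 hε1p
  obtain ⟨q, hq⟩ : ∃ q : ℕ, q = ∏ p ∈ T, p := ⟨_, rfl⟩
  have hq0 : 0 < q := by
    rw [hq]
    exact Finset.prod_pos fun p' hp' => (hT p' hp').1.pos
  have hqr : ∏ p ∈ T, (p : ℝ) = q := by
    rw [hq, Nat.cast_prod]
  obtain ⟨D0, hD0⟩ : ∃ D0 : ℕ, D0 = 4 * q ^ (2 * J) + 5 := ⟨_, rfl⟩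
  obtain ⟨B, hB⟩ : ∃ B : ℝ, B = C * (D0 : ℝ) ^ (3 / 2 : ℝ) := ⟨_, rfl⟩
  have hB0 : 0 ≤ B := by rw [hB]; positivity
  refine ⟨max (max 1 (D0 : ℝ)) (max (4 * B / ε) (q / (2 * ε1))), fun Y hY K _ _ hK => ?_⟩
  have hY1 : 1 ≤ Y := (le_max_left _ _).trans ((le_max_left _ _).trans hY)
  have hYD : (D0 : ℝ) ≤ Y := (le_max_right _ _).trans ((le_max_left _ _).trans hY)
  have hYB : 4 * B / ε ≤ Y := (le_max_left _ _).trans ((le_max_right _ _).trans hY)
  have hYq : q / (2 * ε1) ≤ Y := (le_max_right _ _).trans ((le_max_right _ _).trans hY)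
  have hY0 : 0 < Y := by linarith
  obtain ⟨hS1, hS2, -⟩ := hH Y hY1 K hK
  have hY32 : 0 ≤ Y ^ (3 / 2 : ℝ) := Real.rpow_nonneg hY0.le _
  have hYY : Y ≤ Y ^ (3 / 2 : ℝ) := by
    calc Y = Y ^ (1 : ℝ) := (Real.rpow_one Y).symm
      _ ≤ Y ^ (3 / 2 : ℝ) := Real.rpow_le_rpow_of_exponent_le hY1 (by norm_num)
  -- pointwise bound
  have hpt : ∀ D ∈ fmD Y, (rc (K D) : ℝ) ≤
      ((if D ≤ D0 then (classNumber (K D) : ℝ) else 0) +
        (if ∀ p ∈ T, nrt p 1 0 (D : ℤ) ≠ 2 then (classNumber (K D) : ℝ) else 0)) +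
        (classNumber (K D) : ℝ) / (J + 1) := by
    intro D hD
    have hcn : (0 : ℝ) ≤ classNumber (K D) := Nat.cast_nonneg _
    have hc1 : (0 : ℝ) ≤ (classNumber (K D) : ℝ) / (J + 1) := by positivity
    have h0 : (rc (K D) : ℝ) ≤ classNumber (K D) := by
      have h1 := rc_mul_le hCH2 (K D) 1 0 (fun j h1 h2 => by omega)
      rw [Nat.cast_zero, zero_add, one_mul] at h1
      exact h1
    by_cases hA : D ≤ D0
    · rw [if_pos hA]
      split_ifs <;> linarith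
    · rw [if_neg hA]
      by_cases hB : ∀ p ∈ T, nrt p 1 0 (D : ℤ) ≠ 2
      · rw [if_pos hB]
        linarith
      · rw [if_neg hB]
        push Not at hA hB
        obtain ⟨p, hpT, hp2⟩ := hB
        obtain ⟨hpp, hpne⟩ := hT p hpT
        have hD' : 4 < D := by
          have h1 := hD
          unfold fmD at h1
          exact (Finset.mem_filter.1 h1).2.1
        obtain ⟨x, hx⟩ := hORG (K D) D p ⟨hD', (hK D hD).1, (hK D hD).2⟩ hpp hpne hp2
        have hpq : p ≤ q := Nat.le_of_dvd hq0 (by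
          rw [hq]
          exact Finset.dvd_prod_of_mem (fun p => p) hpT)
        have h1 := rc_mul_le hCH2 (K D) x J (fun j hj1 hj2 => by
          refine hx j hj1 ?_
          have h4 : p ^ (2 * j) ≤ q ^ (2 * J) :=
            (Nat.pow_le_pow_left hpq _).trans (Nat.pow_le_pow_right hq0 (by omega))
          omega)
        have hJ0 : (0 : ℝ) < (J : ℝ) + 1 := by positivity
        have h2 : (rc (K D) : ℝ) ≤ (classNumber (K D) : ℝ) / (J + 1) := by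
          rw [le_div_iff₀ hJ0]
          linarith
        linarith
  refine (Finset.sum_le_sum hpt).trans ?_
  rw [Finset.sum_add_distrib, Finset.sum_add_distrib, ← Finset.sum_filter, ← Finset.sum_filter,
    ← Finset.sum_div]
  -- the three parts
  have hp1 : ∑ D ∈ (fmD Y).filter (fun D => D ≤ D0), (classNumber (K D) : ℝ) ≤
      ε / 4 * Y ^ (3 / 2 : ℝ) := by
    have hsub : fmD (D0 : ℝ) ⊆ fmD Y := by
      intro D hD
      unfold fmD at hD ⊢
      obtain ⟨h1, h2⟩ := Finset.mem_filter.1 hD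
      obtain ⟨h3, h4⟩ := Finset.mem_Icc.1 h1
      rw [Nat.floor_natCast] at h4
      refine Finset.mem_filter.2 ⟨Finset.mem_Icc.2 ⟨h3, Nat.le_floor ?_⟩, h2⟩
      have h5 : (D : ℝ) ≤ D0 := by exact_mod_cast h4
      linarith
    have hD01 : (1 : ℝ) ≤ D0 := by
      have : 1 ≤ D0 := by omega
      exact_mod_cast this
    obtain ⟨h1, -, -⟩ := hH D0 hD01 K (fun D hD => hK D (hsub hD))
    have h2 : ∑ D ∈ (fmD Y).filter (fun D => D ≤ D0), (classNumber (K D) : ℝ) ≤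
        ∑ D ∈ fmD (D0 : ℝ), (classNumber (K D) : ℝ) := by
      refine Finset.sum_le_sum_of_subset_of_nonneg ?_ (fun _ _ _ => Nat.cast_nonneg _)
      intro D hD
      obtain ⟨h3, h4⟩ := Finset.mem_filter.1 hD
      unfold fmD at h3 ⊢
      obtain ⟨h5, h6⟩ := Finset.mem_filter.1 h3
      refine Finset.mem_filter.2 ⟨Finset.mem_Icc.2 ⟨(Finset.mem_Icc.1 h5).1, ?_⟩, h6⟩
      rw [Nat.floor_natCast]
      exact h4
    rw [← hB] at h1
    rw [div_le_iff₀ hε] at hYB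
    have h3 := mul_le_mul_of_nonneg_left hYY (by positivity : (0 : ℝ) ≤ ε / 4)
    linarith
  have hp2 : ∑ D ∈ (fmD Y).filter (fun D : ℕ => ∀ p ∈ T, nrt p 1 0 (D : ℤ) ≠ 2),
      (classNumber (K D) : ℝ) ≤ ε / 4 * Y ^ (3 / 2 : ℝ) := by
    obtain ⟨A, hA⟩ : ∃ A : Finset ℕ,
        A = (fmD Y).filter (fun D : ℕ => ∀ p ∈ T, nrt p 1 0 (D : ℤ) ≠ 2) := ⟨_, rfl⟩
    rw [← hA]
    have hcard : (A.card : ℝ) ≤ 4 * ε1 * Y := by
      have h1 := hSIE T ⌊Y⌋₊ hT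
      rw [hqr] at h1
      have h2 : A ⊆ (Finset.range (⌊Y⌋₊ + 1)).filter
          (fun D : ℕ => ∀ p ∈ T, nrt p 1 0 (D : ℤ) ≠ 2) := by
        intro D hD
        rw [hA] at hD
        obtain ⟨h3, h4⟩ := Finset.mem_filter.1 hD
        unfold fmD at h3
        have h5 := (Finset.mem_Icc.1 (Finset.mem_filter.1 h3).1).2
        exact Finset.mem_filter.2 ⟨Finset.mem_range.2 (by omega), h4⟩
      have h3 : (A.card : ℝ) ≤ (((Finset.range (⌊Y⌋₊ + 1)).filter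
          (fun D : ℕ => ∀ p ∈ T, nrt p 1 0 (D : ℤ) ≠ 2)).card : ℝ) := by
        exact_mod_cast Finset.card_le_card h2
      have hfl : ((⌊Y⌋₊ : ℕ) : ℝ) ≤ Y := Nat.floor_le hY0.le
      have h4 : (∏ p ∈ T, ((p : ℝ) + 1) / (2 * p)) * ((⌊Y⌋₊ : ℕ) + 1) ≤ ε1 * (Y + Y) :=
        mul_le_mul hTε (by linarith) (by positivity) hε1p.le
      have h5 : (q : ℝ) ≤ 2 * ε1 * Y := by
        rw [div_le_iff₀ (by positivity)] at hYq
        linarith
      linarith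
    have hsq : (∑ D ∈ A, (classNumber (K D) : ℝ)) ^ 2 ≤ (ε / 4 * Y ^ (3 / 2 : ℝ)) ^ 2 := by
      have h1 : (∑ D ∈ A, (classNumber (K D) : ℝ)) ^ 2 ≤
          A.card * ∑ D ∈ A, (classNumber (K D) : ℝ) ^ 2 := sq_sum_le_card_mul_sum_sq
      have h2 : ∑ D ∈ A, (classNumber (K D) : ℝ) ^ 2 ≤ C * Y ^ 2 := by
        refine (Finset.sum_le_sum_of_subset_of_nonneg ?_ (fun _ _ _ => by positivity)).trans hS2
        rw [hA]
        exact Finset.filter_subset _ _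
      have h3 : (Y ^ (3 / 2 : ℝ)) ^ 2 = Y ^ 3 := by
        rw [← Real.rpow_natCast, ← Real.rpow_mul hY0.le, ← Real.rpow_natCast]
        norm_num
      refine h1.trans ((mul_le_mul hcard h2 (Finset.sum_nonneg fun _ _ => by positivity)
        (by positivity)).trans (le_of_eq ?_))
      rw [mul_pow, h3, hε1]
      field_simp
    exact abs_le_of_sq_le_sq' hsq (by positivity) |>.2
  have hp3 : (∑ D ∈ fmD Y, (classNumber (K D) : ℝ)) / (J + 1) ≤ ε / 4 * Y ^ (3 / 2 : ℝ) := by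
    have hJ0 : (0 : ℝ) < (J : ℝ) + 1 := by positivity
    rw [div_le_iff₀ hJ0]
    refine hS1.trans ?_
    rw [div_lt_iff₀ hε] at hJ
    have h1 : C ≤ ε / 4 * (J + 1) := by linarith
    have h2 := mul_le_mul_of_nonneg_right h1 hY32
    linarith
  linarith [mul_nonneg (by positivity : (0 : ℝ) ≤ ε / 4) hY32]

end Pool.Agent.H79.CF
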