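import Pool.Agent.H37.CF.Targets
import Pool.Agent.H51.CN.PZ2

/-!
# MP_347b49_nt, board `cfm_modules`: row CSIE
-/

set_option autoImplicit false

namespace Pool.Agent.H79.CF

open Pool.Agent.H31.CN Pool.Agent.H37.CF
open Pool.Agent.H51.CN (RT nrt_eq)

theorem nrt_le_two (p : ℕ) (hp : p.Prime) (Δ : ℤ) : nrt p 1 0 Δ ≤ 2 := by
  classical
  have : Fact p.Prime := ⟨hp⟩
  rw [nrt_eq p hp.ne_zero]
  by_cases hne : Nonempty (RT p 1 0 Δ)
  · obtain ⟨x0⟩ := hne
    have h2 : Nat.card Bool = 2 := by simp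
    rw [← h2]
    refine Nat.card_le_card_of_injective (fun x : RT p 1 0 Δ => decide (x.1 = x0.1)) ?_
    have hsq : ∀ x y : RT p 1 0 Δ, x.1 = y.1 ∨ x.1 = -y.1 := by
      intro x y
      apply sq_eq_sq_iff_eq_or_eq_neg.mp
      have hx := x.2
      have hy := y.2
      push_cast at hx hy
      linear_combination hx - hy
    intro x y hxy
    have hxy' : (x.1 = x0.1) ↔ (y.1 = x0.1) := by
      exact decide_eq_decide.mp hxy
    by_cases hx : x.1 = x0.1
    · exact Subtype.ext (hx.trans (hxy'.mp hx).symm)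
    · have hy : ¬ y.1 = x0.1 := fun h => hx (hxy'.mpr h)
      exact Subtype.ext (((hsq x x0).resolve_left hx).trans ((hsq y x0).resolve_left hy).symm)
  · rw [not_nonempty_iff] at hne
    rw [Nat.card_of_isEmpty]
    exact Nat.zero_le _

/-- `nrt` depends on the residue only -/
lemma nrt_mod (p q D : ℕ) (h : p ∣ q) : nrt p 1 0 ((D % q : ℕ) : ℤ) = nrt p 1 0 (D : ℤ) := by
  unfold nrt
  congr 1
  refine Finset.filter_congr fun j _ => ?_
  have h1 : (p : ℤ) ∣ (D : ℤ) - ((D % q : ℕ) : ℤ) := by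
    have h2 : (q : ℤ) ∣ (D : ℤ) - ((D % q : ℕ) : ℤ) := by
      rw [Int.natCast_mod]
      exact Int.dvd_self_sub_emod
    exact (Int.natCast_dvd_natCast.2 h).trans h2
  have e : 1 * (j : ℤ) ^ 2 + 0 * (j : ℤ) + (D : ℤ) =
      (1 * (j : ℤ) ^ 2 + 0 * (j : ℤ) + ((D % q : ℕ) : ℤ)) + ((D : ℤ) - ((D % q : ℕ) : ℤ)) := by
    ring
  rw [e]
  exact (Int.dvd_add_left h1).symm

/-- the residues of the numbers `D` such that `-D` is not a nonzero square -/
def Bp (p : ℕ) : Finset ℕ := (Finset.range p).filter (fun D : ℕ => nrt p 1 0 (D : ℤ) ≠ 2)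

lemma card_Bp (p : ℕ) (hp : p.Prime) (h2 : p ≠ 2) : 2 * (Bp p).card ≤ p + 1 := by
  classical
  have hodd : p % 2 = 1 := (hp.eq_two_or_odd).resolve_left h2
  have hp0 : 0 < p := hp.pos
  have hpZ : (0 : ℤ) < p := by exact_mod_cast hp0
  obtain ⟨G, hG⟩ : ∃ G : Finset ℕ, G = (Finset.range p).filter (fun D : ℕ =>
      nrt p 1 0 (D : ℤ) = 2) := ⟨_, rfl⟩
  have hsum : G.card + (Bp p).card = p := by
    rw [hG]
    unfold Bp
    rw [Finset.card_filter_add_card_filter_not, Finset.card_range]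
  have hlow : (p - 1) / 2 ≤ G.card := by
    have h3 : (Finset.Icc 1 ((p - 1) / 2)).card = (p - 1) / 2 := by
      rw [Nat.card_Icc]
      omega
    rw [← h3]
    refine Finset.card_le_card_of_injOn (fun j => ((-(j : ℤ) ^ 2) % p).toNat) ?_ ?_
    · intro j hj
      obtain ⟨hj1, hj2⟩ := Finset.mem_Icc.1 hj
      have h4 : 0 ≤ (-(j : ℤ) ^ 2) % p := Int.emod_nonneg _ hpZ.ne'
      have h5 : (-(j : ℤ) ^ 2) % p < p := Int.emod_lt_of_pos _ hpZ
      have h6 : ((((-(j : ℤ) ^ 2) % p).toNat : ℕ) : ℤ) = (-(j : ℤ) ^ 2) % p :=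
        Int.toNat_of_nonneg h4
      have h7 : (p : ℤ) ∣ -(j : ℤ) ^ 2 - (-(j : ℤ) ^ 2) % p := Int.dvd_self_sub_emod
      rw [hG]
      have h6' : ((-(j : ℤ) ^ 2) % p).toNat < p := by omega
      refine Finset.mem_coe.2 (Finset.mem_filter.2 ⟨Finset.mem_range.2 h6', ?_⟩)
      apply le_antisymm (nrt_le_two p hp _)
      rw [h6]
      unfold nrt
      have hjp : j < p - j := by omega
      have h8 : ({j, p - j} : Finset ℕ).card = 2 := Finset.card_pair hjp.ne
      refine h8.symm.le.trans (Finset.card_le_card ?_)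
      intro i hi
      rw [Finset.mem_insert, Finset.mem_singleton] at hi
      rw [Finset.mem_filter, Finset.mem_range]
      rcases hi with rfl | rfl
      · refine ⟨by omega, ?_⟩
        have h9 := (dvd_neg (α := ℤ)).2 h7
        have e : 1 * (i : ℤ) ^ 2 + 0 * (i : ℤ) + (-(i : ℤ) ^ 2) % p =
            -(-(i : ℤ) ^ 2 - (-(i : ℤ) ^ 2) % p) := by ring
        rw [e]
        exact h9
      · refine ⟨by omega, ?_⟩
        have h9 := (dvd_neg (α := ℤ)).2 h7
        have h10 : ((p - j : ℕ) : ℤ) = p - j := by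
          rw [Nat.cast_sub (by omega)]
        rw [h10]
        have e : 1 * ((p : ℤ) - j) ^ 2 + 0 * ((p : ℤ) - j) + (-(j : ℤ) ^ 2) % p =
            -(-(j : ℤ) ^ 2 - (-(j : ℤ) ^ 2) % p) + p * (p - 2 * j) := by ring
        rw [e]
        exact dvd_add h9 (dvd_mul_right _ _)
    · intro i hi j hj hij
      obtain ⟨hi1, hi2⟩ := Finset.mem_Icc.1 (Finset.mem_coe.1 hi)
      obtain ⟨hj1, hj2⟩ := Finset.mem_Icc.1 (Finset.mem_coe.1 hj)
      have h4 : ∀ x : ℤ, 0 ≤ x % p := fun x => Int.emod_nonneg _ hpZ.ne'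
      have h5 : (-(i : ℤ) ^ 2) % p = (-(j : ℤ) ^ 2) % p := by
        have h6 : (((((-(i : ℤ) ^ 2) % p).toNat : ℕ) : ℤ)) =
            ((((-(j : ℤ) ^ 2) % p).toNat : ℕ) : ℤ) := by exact_mod_cast hij
        rwa [Int.toNat_of_nonneg (h4 _), Int.toNat_of_nonneg (h4 _)] at h6
      have h6 : (p : ℤ) ∣ -(j : ℤ) ^ 2 - -(i : ℤ) ^ 2 := Int.ModEq.dvd h5
      have h7 : (p : ℤ) ∣ ((i : ℤ) - j) * (i + j) := by
        have e : ((i : ℤ) - j) * (i + j) = -(j : ℤ) ^ 2 - -(i : ℤ) ^ 2 := by ring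
        rw [e]
        exact h6
      have hpI : Prime (p : ℤ) := Nat.prime_iff_prime_int.1 hp
      rcases hpI.dvd_or_dvd h7 with h8 | h8
      · have h9 : (i : ℤ) - j = 0 := by
          apply Int.eq_zero_of_abs_lt_dvd h8
          rw [abs_lt]
          constructor <;> omega
        omega
      · exfalso
        have h9 := Int.le_of_dvd (by omega) h8
        omega
  omega

/-- one period -/
lemma card_per (T : Finset ℕ) (hT : ∀ p ∈ T, p.Prime ∧ p ≠ 2) :
    (((Finset.range (∏ p ∈ T, p)).filter (fun D : ℕ => ∀ p ∈ T, nrt p 1 0 (D : ℤ) ≠ 2)).card : ℝ) ≤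
      ∏ p ∈ T, ((p : ℝ) + 1) / 2 := by
  classical
  induction T using Finset.induction_on with
  | empty => simp
  | insert p T hpT ih =>
    have hp := hT p (Finset.mem_insert_self p T)
    have hT' : ∀ p' ∈ T, p'.Prime ∧ p' ≠ 2 := fun p' hp' => hT p' (Finset.mem_insert_of_mem hp')
    have ih' := ih hT'
    rw [Finset.prod_insert hpT, Finset.prod_insert hpT]
    obtain ⟨q, hq⟩ : ∃ q : ℕ, q = ∏ p ∈ T, p := ⟨_, rfl⟩
    rw [← hq] at ih' ⊢
    have hq0 : 0 < q := by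
      rw [hq]
      exact Finset.prod_pos fun p' hp' => (hT' p' hp').1.pos
    have hcop : p.Coprime q := by
      rw [hq]
      refine Nat.Coprime.prod_right fun p' hp' => ?_
      refine (Nat.coprime_primes hp.1 (hT' p' hp').1).2 fun h => hpT ?_
      rw [h]
      exact hp'
    have hdvd : ∀ p' ∈ T, p' ∣ q := fun p' hp' => by
      rw [hq]
      exact Finset.dvd_prod_of_mem (fun p => p) hp'
    have hcard : ((Finset.range (p * q)).filter
        (fun D : ℕ => ∀ p' ∈ insert p T, nrt p' 1 0 (D : ℤ) ≠ 2)).card ≤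
        (Bp p ×ˢ ((Finset.range q).filter
          (fun D : ℕ => ∀ p' ∈ T, nrt p' 1 0 (D : ℤ) ≠ 2))).card := by
      refine Finset.card_le_card_of_injOn (fun D => (D % p, D % q)) ?_ ?_
      · intro D hD
        obtain ⟨hD1, hD2⟩ := Finset.mem_filter.1 (Finset.mem_coe.1 hD)
        refine Finset.mem_coe.2 (Finset.mem_product.2 ⟨?_, ?_⟩)
        · refine Finset.mem_filter.2 ⟨Finset.mem_range.2 (Nat.mod_lt _ hp.1.pos), ?_⟩
          rw [nrt_mod p p D dvd_rfl]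
          exact hD2 p (Finset.mem_insert_self p T)
        · refine Finset.mem_filter.2 ⟨Finset.mem_range.2 (Nat.mod_lt _ hq0), fun p' hp' => ?_⟩
          rw [nrt_mod p' q D (hdvd p' hp')]
          exact hD2 p' (Finset.mem_insert_of_mem hp')
      · intro D hD E hE hDE
        have h1 := Finset.mem_range.1 (Finset.mem_filter.1 (Finset.mem_coe.1 hD)).1
        have h2 := Finset.mem_range.1 (Finset.mem_filter.1 (Finset.mem_coe.1 hE)).1
        obtain ⟨h3, h4⟩ := Prod.mk.inj hDE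
        have h5 : D ≡ E [MOD p * q] := (Nat.modEq_and_modEq_iff_modEq_mul hcop).1 ⟨h3, h4⟩
        exact Nat.ModEq.eq_of_lt_of_lt h5 h1 h2
    rw [Finset.card_product] at hcard
    have h1 : (((Finset.range (p * q)).filter
        (fun D : ℕ => ∀ p' ∈ insert p T, nrt p' 1 0 (D : ℤ) ≠ 2)).card : ℝ) ≤
        (Bp p).card * (((Finset.range q).filter
          (fun D : ℕ => ∀ p' ∈ T, nrt p' 1 0 (D : ℤ) ≠ 2)).card : ℝ) := by
      exact_mod_cast hcard
    have h2 : ((Bp p).card : ℝ) ≤ ((p : ℝ) + 1) / 2 := by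
      have h3 : ((2 * (Bp p).card : ℕ) : ℝ) ≤ ((p + 1 : ℕ) : ℝ) := by
        exact_mod_cast card_Bp p hp.1 hp.2
      push_cast at h3
      linarith
    exact h1.trans (mul_le_mul h2 ih' (Nat.cast_nonneg _) (by positivity))

theorem pf_SIE : Pool.Agent.H37.CF.T_SIE := by
  classical
  intro T Y hT
  obtain ⟨q, hq⟩ : ∃ q : ℕ, q = ∏ p ∈ T, p := ⟨_, rfl⟩
  have hq0 : 0 < q := by
    rw [hq]
    exact Finset.prod_pos fun p' hp' => (hT p' hp').1.pos
  have hq0' : (0 : ℝ) < q := by exact_mod_cast hq0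
  have hdvd : ∀ p' ∈ T, p' ∣ q := fun p' hp' => by
    rw [hq]
    exact Finset.dvd_prod_of_mem (fun p => p) hp'
  have hper := card_per T hT
  rw [← hq] at hper
  have hcard : ((Finset.range (Y + 1)).filter
      (fun D : ℕ => ∀ p ∈ T, nrt p 1 0 (D : ℤ) ≠ 2)).card ≤
      (Finset.range ((Y + 1) / q + 1) ×ˢ ((Finset.range q).filter
        (fun D : ℕ => ∀ p' ∈ T, nrt p' 1 0 (D : ℤ) ≠ 2))).card := by
    refine Finset.card_le_card_of_injOn (fun D => (D / q, D % q)) ?_ ?_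
    · intro D hD
      obtain ⟨hD1, hD2⟩ := Finset.mem_filter.1 (Finset.mem_coe.1 hD)
      refine Finset.mem_coe.2 (Finset.mem_product.2 ⟨?_, ?_⟩)
      · rw [Finset.mem_range, Nat.lt_succ_iff]
        exact Nat.div_le_div_right (Finset.mem_range.1 hD1).le
      · refine Finset.mem_filter.2 ⟨Finset.mem_range.2 (Nat.mod_lt _ hq0), fun p' hp' => ?_⟩
        rw [nrt_mod p' q D (hdvd p' hp')]
        exact hD2 p' hp'
    · intro D _ E _ hDE
      obtain ⟨h3, h4⟩ := Prod.mk.inj hDE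
      rw [← Nat.div_add_mod D q, ← Nat.div_add_mod E q, h3, h4]
  rw [Finset.card_product, Finset.card_range] at hcard
  have h1 : (((Finset.range (Y + 1)).filter
      (fun D : ℕ => ∀ p ∈ T, nrt p 1 0 (D : ℤ) ≠ 2)).card : ℝ) ≤
      (((Y + 1) / q + 1 : ℕ) : ℝ) * (((Finset.range q).filter
        (fun D : ℕ => ∀ p' ∈ T, nrt p' 1 0 (D : ℤ) ≠ 2)).card : ℝ) := by
    exact_mod_cast hcard
  have h2 : (((Y + 1) / q + 1 : ℕ) : ℝ) ≤ ((Y : ℝ) + 1) / q + 1 := by
    push_cast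
    have h3 : (((Y + 1) / q : ℕ) : ℝ) ≤ (((Y + 1 : ℕ)) : ℝ) / q := Nat.cast_div_le
    push_cast at h3
    linarith
  have hP0 : 0 ≤ ∏ p ∈ T, ((p : ℝ) + 1) / 2 := Finset.prod_nonneg fun p _ => by positivity
  have h3 := h1.trans (mul_le_mul h2 hper (Nat.cast_nonneg _) (by positivity))
  refine h3.trans ?_
  have hqr : (q : ℝ) = ∏ p ∈ T, (p : ℝ) := by
    rw [hq, Nat.cast_prod]
  have h4 : (∏ p ∈ T, ((p : ℝ) + 1) / 2) / q = ∏ p ∈ T, ((p : ℝ) + 1) / (2 * p) := by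
    rw [hqr, ← Finset.prod_div_distrib]
    refine Finset.prod_congr rfl fun p _ => ?_
    rw [div_div]
  have h5 : ∏ p ∈ T, ((p : ℝ) + 1) / 2 ≤ ∏ p ∈ T, (p : ℝ) := by
    refine Finset.prod_le_prod (fun p _ => by positivity) fun p hp => ?_
    have h6 : (1 : ℝ) ≤ p := by exact_mod_cast (hT p hp).1.one_lt.le
    linarith
  calc (((Y : ℝ) + 1) / q + 1) * ∏ p ∈ T, ((p : ℝ) + 1) / 2 =
      (∏ p ∈ T, ((p : ℝ) + 1) / 2) / q * (Y + 1) + ∏ p ∈ T, ((p : ℝ) + 1) / 2 := by ring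
    _ ≤ (∏ p ∈ T, ((p : ℝ) + 1) / (2 * p)) * (Y + 1) + ∏ p ∈ T, (p : ℝ) := by
        rw [h4]
        linarith

end Pool.Agent.H79.CF
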