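import Pool.Agent.H37.CF.Targets

/-!
# MP_347b49_nt, board `cfm_modules`: row CSIP
-/

set_option autoImplicit false

namespace Pool.Agent.H79.CF

open Pool.Agent.H37.CF

theorem pf_SIP : Pool.Agent.H37.CF.T_SIP := by
  intro ε hε
  obtain ⟨n, hn⟩ := exists_pow_lt_of_lt_one hε (by norm_num : (2 / 3 : ℝ) < 1)
  have hinf : ({p : ℕ | p.Prime} \ {2}).Infinite :=
    Nat.infinite_setOfPred_prime.sdiff (Set.finite_singleton 2)
  obtain ⟨T, hT, hcard⟩ := hinf.exists_subset_card_eq n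
  have hT' : ∀ p ∈ T, p.Prime ∧ p ≠ 2 := by
    intro p hp
    have h := hT hp
    exact ⟨h.1, fun h2 => h.2 h2⟩
  refine ⟨T, hT', ?_⟩
  have h1 : ∏ p ∈ T, ((p : ℝ) + 1) / (2 * p) ≤ ∏ _p ∈ T, (2 / 3 : ℝ) := by
    refine Finset.prod_le_prod (fun p _ => by positivity) fun p hp => ?_
    obtain ⟨hpp, hp2⟩ := hT' p hp
    have h3 : 3 ≤ p := by
      have := hpp.two_le
      omega
    have h4 : (3 : ℝ) ≤ p := by exact_mod_cast h3
    rw [div_le_iff₀ (by positivity)]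
    linarith
  rw [Finset.prod_const, hcard] at h1
  exact h1.trans hn.le

end Pool.Agent.H79.CF
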