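import Pool.Agent.H56.CF.Targets

/-!
# MP_347b49_nt, board `cfm_modules`: lemmas for the rows RTLS, RREA, RD34
-/

set_option autoImplicit false

open NumberField Module
open scoped nonZeroDivisors

namespace Pool.Agent.H79.CF

open Pool.Agent.H28.RC Pool.Agent.H91.CF Pool.Agent.H24.Cls Pool.Agent.H31.CN Pool.Agent.H56.CF

lemma phi_le (hP : T_PHI) (f : ℕ) (hf : 1 ≤ f) :
    (f : ℝ) ^ 2 / Nat.totient f ≤ √2 * (f * √f) := by
  have hφ : 0 < Nat.totient f := Nat.totient_pos.2 hf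
  have hφ' : (0 : ℝ) < Nat.totient f := by exact_mod_cast hφ
  have h1 : (f : ℝ) ≤ 2 * (Nat.totient f : ℝ) ^ 2 := by exact_mod_cast hP f hf
  have hf' : (0 : ℝ) < f := by exact_mod_cast hf
  have h2 : √(f : ℝ) ≤ √2 * Nat.totient f := by
    apply Real.sqrt_le_iff.2
    refine ⟨by positivity, ?_⟩
    rw [mul_pow, Real.sq_sqrt (by norm_num)]
    exact h1
  rw [div_le_iff₀ hφ']
  have h3 : √(f : ℝ) * √(f : ℝ) = f := Real.mul_self_sqrt hf'.le
  calc (f : ℝ) ^ 2 = f * √f * √f := by rw [mul_assoc, h3]; ring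
    _ ≤ f * √f * (√2 * Nat.totient f) := by
        apply mul_le_mul_of_nonneg_left h2
        positivity
    _ = √2 * (f * √f) * Nat.totient f := by ring

lemma nn_le (hN : Pool.Agent.H91.CF.T_NRF) (hP : T_PHI) (K : Type) [Field K] [NumberField K]
    (h2 : finrank ℚ K = 2) (f : ℕ) (hf : 1 ≤ f) :
    (nn K f : ℝ) ≤ 8 * √2 * (f * √f) * classNumber K := by
  refine (hN f K hf h2).2.1.trans ?_
  have h := mul_le_mul_of_nonneg_left (phi_le hP f hf)
    (by positivity : (0 : ℝ) ≤ 8 * classNumber K)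
  refine h.trans (le_of_eq (by ring))

lemma pow32 (X : ℝ) (f : ℕ) (hX : 0 ≤ X) (hf : 1 ≤ f) :
    (f * √f) * (X / (f : ℝ) ^ 2) ^ (3 / 2 : ℝ) = X ^ (3 / 2 : ℝ) * (1 / (f * √f)) := by
  have hf' : (0 : ℝ) < f := by exact_mod_cast hf
  rw [Real.div_rpow hX (by positivity)]
  have h1 : ((f : ℝ) ^ 2) ^ (3 / 2 : ℝ) = (f : ℝ) ^ 3 := by
    rw [← Real.rpow_natCast, ← Real.rpow_mul hf'.le, ← Real.rpow_natCast]
    norm_num
  rw [h1]
  have h3 : √(f : ℝ) * √(f : ℝ) = f := Real.mul_self_sqrt hf'.le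
  have hs : √(f : ℝ) ≠ 0 := (Real.sqrt_pos.2 hf').ne'
  have h4 : (f : ℝ) ^ 3 = (f * √f) * (f * √f) := by
    calc (f : ℝ) ^ 3 = f * f * f := by ring
      _ = f * f * (√f * √f) := by rw [h3]
      _ = (f * √f) * (f * √f) := by ring
  rw [h4]
  field_simp

/-- the sum over the tail -/
lemma tail_sum (F N : ℕ) (hF : 1 ≤ F) (hN : F ≤ N) :
    ∑ f ∈ Finset.Ioc F N, 1 / ((f : ℝ) * √f) ≤ 2 / √F - 2 / √N := by
  induction N, hN using Nat.le_induction with
  | base => simp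
  | succ n hn ih =>
    rw [Finset.sum_Ioc_succ_top hn]
    have hn' : (0 : ℝ) < n := by
      have : 0 < n := by omega
      exact_mod_cast this
    obtain ⟨a, ha⟩ : ∃ a : ℝ, a = √(n : ℝ) := ⟨_, rfl⟩
    obtain ⟨b, hb⟩ : ∃ b : ℝ, b = √((n + 1 : ℕ) : ℝ) := ⟨_, rfl⟩
    have ha0 : 0 < a := by rw [ha]; exact Real.sqrt_pos.2 hn'
    have hb0 : 0 < b := by
      rw [hb]
      apply Real.sqrt_pos.2
      positivity
    have ha2 : a * a = n := by rw [ha]; exact Real.mul_self_sqrt hn'.le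
    have hb2 : b * b = n + 1 := by
      rw [hb, Real.mul_self_sqrt (by positivity)]
      push_cast
      ring
    have hab : a ≤ b := by
      rw [ha, hb]
      apply Real.sqrt_le_sqrt
      push_cast
      linarith
    rw [← ha] at ih
    rw [← hb]
    have h1 : 1 / (((n + 1 : ℕ) : ℝ) * b) ≤ 2 / a - 2 / b := by
      have h2 : (((n + 1 : ℕ) : ℝ)) = b * b := by
        rw [hb2]
        push_cast
        ring
      rw [h2, div_sub_div _ _ ha0.ne' hb0.ne', div_le_div_iff₀ (by positivity) (by positivity)]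
      have h3 : (b - a) * (b + a) = 1 := by linarith
      have h4 : 0 ≤ b - a := by linarith
      have h5 : a * b ≤ 2 * (b - a) * (b * b * b) := by
        have h6 : b * b * (a * b) = b * b * (a * b) * ((b - a) * (b + a)) := by rw [h3, mul_one]
        have h7 : a * b * ((b - a) * (b + a)) ≤ 2 * (b - a) * (b * b * b) := by
          have h8 : a * b * (b + a) ≤ 2 * (b * b * b) := by
            have h9 : a * b ≤ b * b := mul_le_mul_of_nonneg_right hab hb0.le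
            have h10 : b + a ≤ 2 * b := by linarith
            calc a * b * (b + a) ≤ b * b * (2 * b) :=
                  mul_le_mul h9 h10 (by positivity) (by positivity)
              _ = 2 * (b * b * b) := by ring
          calc a * b * ((b - a) * (b + a)) = (b - a) * (a * b * (b + a)) := by ring
            _ ≤ (b - a) * (2 * (b * b * b)) := mul_le_mul_of_nonneg_left h8 h4
            _ = 2 * (b - a) * (b * b * b) := by ring
        rwa [h3, mul_one] at h7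
      linarith
    linarith

/-- exchange of the two sums -/
lemma exch (S : Finset ℤ) (X : ℝ) (F : ℕ) (g : ℤ → ℕ → ℝ) (hg : ∀ d f, 0 ≤ g d f)
    (hX : 1 ≤ X) (hd : ∀ d ∈ S, 1 ≤ |(d : ℝ)|) (T : Finset ℕ)
    (hT : ∀ f : ℕ, F < f → (f : ℝ) ^ 2 ≤ X → f ∈ T) :
    ∑ d ∈ S, ∑ f ∈ Finset.Ioc F ⌊√(X / |(d : ℝ)|)⌋₊, g d f ≤
      ∑ f ∈ T.filter (fun f => F < f),
        ∑ d ∈ S.filter (fun d : ℤ => |(d : ℝ)| * (f : ℝ) ^ 2 ≤ X), g d f := by
  have h1 : ∀ d ∈ S, ∑ f ∈ Finset.Ioc F ⌊√(X / |(d : ℝ)|)⌋₊, g d f ≤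
      ∑ f ∈ T.filter (fun f => F < f), if |(d : ℝ)| * (f : ℝ) ^ 2 ≤ X then g d f else 0 := by
    intro d hdS
    have hd1 := hd d hdS
    rw [← Finset.sum_filter]
    refine Finset.sum_le_sum_of_subset_of_nonneg ?_ (fun _ _ _ => hg _ _)
    intro f hf
    obtain ⟨hf1, hf2⟩ := Finset.mem_Ioc.1 hf
    have h2 : (f : ℝ) ≤ √(X / |(d : ℝ)|) :=
      (Nat.le_floor_iff (Real.sqrt_nonneg _)).1 hf2
    have h3 : (f : ℝ) ^ 2 ≤ X / |(d : ℝ)| := by
      have h4 : (f : ℝ) ^ 2 ≤ √(X / |(d : ℝ)|) ^ 2 := pow_le_pow_left₀ (Nat.cast_nonneg f) h2 2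
      rwa [Real.sq_sqrt (by positivity)] at h4
    rw [le_div_iff₀ (by linarith)] at h3
    have h5 : (f : ℝ) ^ 2 ≤ X := by
      have h6 : (f : ℝ) ^ 2 * 1 ≤ (f : ℝ) ^ 2 * |(d : ℝ)| :=
        mul_le_mul_of_nonneg_left hd1 (by positivity)
      linarith
    refine Finset.mem_filter.2 ⟨Finset.mem_filter.2 ⟨hT f hf1 h5, hf1⟩, ?_⟩
    rw [mul_comm]
    exact h3
  refine (Finset.sum_le_sum h1).trans (le_of_eq ?_)
  rw [Finset.sum_comm]
  refine Finset.sum_congr rfl fun f _ => ?_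
  rw [Finset.sum_filter]

lemma fam_abs {K : ℤ → Type} [∀ d, Field (K d)] [∀ d, NumberField (K d)] {S : Finset ℤ} {X : ℝ}
    (h : Fam K S X) (d : ℤ) (hd : d ∈ S) : 1 ≤ |(d : ℝ)| := by
  obtain ⟨-, h2, -⟩ := h d hd
  have h3 : d ≠ 0 := by
    rw [← h2]
    exact discr_ne_zero (K d)
  have h4 : 1 ≤ |d| := Int.one_le_abs h3
  have h5 : ((1 : ℤ) : ℝ) ≤ ((|d| : ℤ) : ℝ) := by exact_mod_cast h4
  rwa [Int.cast_one, Int.cast_abs] at h5

end Pool.Agent.H79.CF
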